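import Mathlib
import Pool.Agent.H422.MF.MainP

/-!
# One-parameter families of polynomials `s ^ a * P (s ^ b * z ^ e)` over number fields

Let `K` be a number field, `P` a separable polynomial over `K` with `P(0) ≠ 0`, `e` a positive integer,
`a, b` integers, and `M = |e a + b| / gcd(e, b)`. If `M ≥ 4`, `e ≥ 4`, `deg P ≥ 2` (or `M ≥ 3`, `e ≥ 5`,
`deg P ≥ 3`, or `M ≥ 2`, `e ≥ 6`, `deg P ≥ 4`), then for all but finitely many `s ≠ 0` in `K` the
polynomial `f_s(z) = s ^ a P(s ^ b z ^ e)` has no preperiodic points in `K` at all, and the number of the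
preperiodic points in `K` of `f_s` is bounded uniformly in `s`.

For `a = m = deg P` and `b = -1` this is the family of the polynomials `∏ (z ^ e - α_i t)`, where
`α_1, ..., α_m` are distinct and not zero, `m ≥ 2` and `e ≥ 4` (here `M = e m - 1`).

Sketch of the proof. By the conjugation `z = s ^ a z'` and by replacing `s` by its inverse one may assume
`f_s(z) = P(s ^ N z ^ e)`, `N = |e a + b|`. Let `x ≠ y` be periodic points, `ζ ^ e = 1`, `ζ ≠ 1`. Outside a
fixed finite set of places: if `|s| = 1`, then `x - ζ y` is a unit; if `|s| < 1`, then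
`|x - ζ y| = max (|x|, |y|)`; if `|s| > 1`, then all the preperiodic points lie near the zeros of
`P(s ^ N z ^ e)`, where the map is expanding with factor `|x|⁻¹`, a power with exponent `M`, so
`|x - ζ y|` is `|y|` times a power with exponent `M`. Hence all ratios `(x / y - ζ) / (x / y - ζ')` have
orders divisible by `M` outside a fixed finite set of places, and Mordell's conjecture for hyperelliptic
curves over number fields (proved in `Pool/Agent/H422/HE`) leaves finitely many quotients `x / y` for all
`s` together. So `f_s(y) = τ y` with `τ` in a finite set, and then `w = s ^ N y ^ e` satisfies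
`w τ ^ e = s ^ N P(w) ^ e`; the orders of `w` and of `w - α_i` are divisible by `M` relative to each
other, so there are finitely many `w`, and finitely many `s`. For the exceptional `s` one uses
Northcott's theorem.
-/

set_option autoImplicit false

namespace Pool.Agent.Results.MP_90787a_nt.MonomialFamilies

open Pool.Agent.H422.UC Pool.Agent.H422.MF Polynomial

theorem result (K : Type) [Field K] [NumberField K] (P : Polynomial K) (hP : P.Separable)
    (hP0 : P.eval 0 ≠ 0) (e : ℕ) (a b : ℤ) (M : ℕ) (hM : M * Int.gcd e b = (e * a + b).natAbs)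
    (h : (4 ≤ M ∧ 4 ≤ e ∧ 2 ≤ P.natDegree) ∨ (3 ≤ M ∧ 5 ≤ e ∧ 3 ≤ P.natDegree) ∨
      (2 ≤ M ∧ 6 ≤ e ∧ 4 ≤ P.natDegree)) :
    ∃ (E : Finset K) (B : ℕ), ∀ (s : K) (T : Finset K), s ≠ 0 →
      (∀ x ∈ T, ∃ m n : ℕ, m < n ∧
        (fun z : K => s ^ a * P.eval (s ^ b * z ^ e))^[m] x =
          (fun z : K => s ^ a * P.eval (s ^ b * z ^ e))^[n] x) →
      T.card ≤ B ∧ (s ∉ E → T = ∅) :=
  main_ab K hP (by rwa [coeff_zero_eq_eval_zero]) hM (by unfold Hyp; omega) (by unfold Hyp; omega)

end Pool.Agent.Results.MP_90787a_nt.MonomialFamilies
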