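import Mathlib
import Pool.Agent.H421.QdE

/-!
# Uniform boundedness for `z ^ d + c` and all points of degree at most two

Let `k` be a number field and `d ≥ 6`. The number of the preperiodic points of degree at most two
over `k` of the polynomials `z ^ d + c`, `c ∈ k`, is bounded by a number which depends only on `k`
and `d`. In particular (`k = ℚ`) there is a number `B`, depending only on `d`, such that for every
rational number `c` and every quadratic field `K` the polynomial `z ^ d + c` has at most `B`
preperiodic points in `K`. For all but finitely many `c ∈ k` the preperiodic points of degree at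
most two over `k` are just the solutions of `x ^ d + c = p` for one fixed point `p ∈ k` of the
polynomial, or there are none.

Proof. Let `x` be a periodic point of degree two over `k`, `y` its conjugate; suppose that `k`
contains the `d`-th roots of unity. The numbers `x - ζ y`, `ζ ^ d = 1`, `ζ ≠ 1`, are units outside a
finite set of primes and the primes of bad reduction, and at the latter the value of
`(x - ζ y) (x - ζ⁻¹ y) / (x y) = τ - (ζ + ζ⁻¹)`, `τ = x / y + y / x ∈ k`, is a `(d - 1)`-th power in
the value group of `k`. By Mordell's conjecture for suitable curves over `k` there are only finitely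
many `τ`, hence `x` lies in one of finitely many quadratic extensions of `k`, and the result on
`z ^ d + c` over a fixed number field can be applied. The preperiodic points are treated in a
similar way.
-/

namespace Pool.Agent.Results.MP_90787a_nt.QuadraticPoints

open Polynomial

/-- `x` is a preperiodic point of the map `f`. -/
def Preper {X : Type*} (f : X → X) (x : X) : Prop := ∃ i j : ℕ, j < i ∧ f^[i] x = f^[j] x

/-- The preperiodic points of `z ^ d + c` of degree at most two over `k`, in an algebraic closure
of `k`. -/
def Pts (k : Type) [Field k] (d : ℕ) (c : k) : Set (AlgebraicClosure k) :=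
  {x | (minpoly k x).natDegree ≤ 2 ∧
    Preper (fun z => z ^ d + algebraMap k (AlgebraicClosure k) c) x}

lemma pre_iff {X : Type*} (f : X → X) (x : X) : Preper f x ↔ Pool.Agent.H422.UC.Pre f x := by
  constructor
  · rintro ⟨i, j, h, he⟩
    exact ⟨j, i, h, he.symm⟩
  · rintro ⟨j, i, h, he⟩
    exact ⟨i, j, h, he.symm⟩

/-- **Uniform boundedness for `z ^ d + c`, `d ≥ 6`, and all points of degree at most two over a
number field `k`.** There are a number `B` and a finite subset `E` of `k` such that for all `c ∈ k`:
(1) `z ^ d + c` has at most `B` preperiodic points of degree at most two over `k`;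
(2) in particular `z ^ d + c` has at most `B` preperiodic points in `K`, for every quadratic
extension `K` of `k`;
(3) if `c ∉ E`, then either there is no preperiodic point of degree at most two over `k`, or there is
a fixed point `p ∈ k`, and the preperiodic points of degree at most two over `k` are the solutions
`x` of `x ^ d + c = p` which have degree at most two over `k`. -/
theorem result (k : Type) [Field k] [NumberField k] (d : ℕ) (hd : 6 ≤ d) :
    ∃ (B : ℕ) (E : Set k), E.Finite ∧ ∀ c : k,
      ((Pts k d c).Finite ∧ (Pts k d c).ncard ≤ B) ∧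
      (∀ (K : Type) [Field K] [Algebra k K], Module.finrank k K = 2 →
        ∀ T : Finset K, (∀ x ∈ T, Preper (fun z => z ^ d + algebraMap k K c) x) → T.card ≤ B) ∧
      (c ∉ E → Pts k d c = ∅ ∨ ∃ p : k, p ^ d + c = p ∧
        Pts k d c = {x | (minpoly k x).natDegree ≤ 2 ∧
          x ^ d + algebraMap k (AlgebraicClosure k) c = algebraMap k (AlgebraicClosure k) p}) := by
  classical
  obtain ⟨E, hE, hs⟩ := Pool.Agent.H421.QD.gen_struct k hd
  obtain ⟨B, hB⟩ := Pool.Agent.H421.QD.gen_bound k hd (AlgebraicClosure k)
  have hint : ∀ x : AlgebraicClosure k, IsIntegral k x := fun x =>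
    (AlgebraicClosure.isAlgebraic k).isAlgebraic x |>.isIntegral
  have hsub : ∀ c : k, Pts k d c ⊆ {x : AlgebraicClosure k | Pool.Agent.H421.QD.IsQ k x ∧
      Pool.Agent.H422.UC.Pre
        (Pool.Agent.H422.UC.FF d (algebraMap k (AlgebraicClosure k) c)) x} := by
    rintro c x ⟨h1, h2⟩
    exact ⟨Pool.Agent.H421.QD.isQ_of_natDegree (hint x) h1, (pre_iff _ x).mp h2⟩
  have hfin : ∀ c : k, (Pts k d c).Finite := fun c =>
    (Pool.Agent.H421.QD.northcott2 k (by omega) c (AlgebraicClosure k)).subset (hsub c)
  have hcard : ∀ c : k, (Pts k d c).ncard ≤ B := fun c =>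
    (Set.ncard_le_ncard (hsub c) (Pool.Agent.H421.QD.northcott2 k (by omega) c _)).trans (hB c)
  refine ⟨B, E, hE, fun c => ⟨⟨hfin c, hcard c⟩, ?_, ?_⟩⟩
  · intro K _ _ hK T hT
    have hfd : FiniteDimensional k K := Module.finite_of_finrank_pos (by omega)
    let φ : K →ₐ[k] AlgebraicClosure k := IsAlgClosed.lift
    have hφ : Function.Injective φ := (φ : K →+* AlgebraicClosure k).injective
    have h1 : ((T.image φ : Finset (AlgebraicClosure k)) : Set (AlgebraicClosure k)) ⊆
        Pts k d c := by
      intro y hy
      rw [Finset.mem_coe, Finset.mem_image] at hy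
      obtain ⟨x, hx, rfl⟩ := hy
      refine ⟨?_, ?_⟩
      · rw [minpoly.algHom_eq φ φ.toRingHom.injective, ← hK]
        exact minpoly.natDegree_le x
      · obtain ⟨i, j, hij, he⟩ := hT x hx
        refine ⟨i, j, hij, ?_⟩
        have hit : ∀ n : ℕ, (fun z => z ^ d + algebraMap k (AlgebraicClosure k) c)^[n] (φ x) =
            φ ((fun z => z ^ d + algebraMap k K c)^[n] x) := by
          intro n
          induction n with
          | zero => rfl
          | succ n ih =>
            rw [Function.iterate_succ_apply', Function.iterate_succ_apply', ih]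
            simp only [map_add, map_pow, AlgHom.commutes]
        rw [hit, hit, he]
    have h2 := Set.ncard_le_ncard h1 (hfin c)
    rw [Set.ncard_coe_finset, Finset.card_image_of_injective _ hφ] at h2
    exact h2.trans (hcard c)
  · intro hc
    rcases hs c hc with h | ⟨p, hp, h⟩
    · left
      rw [Set.eq_empty_iff_forall_notMem]
      intro x hx
      exact h _ x (hsub c hx).1 (hsub c hx).2
    · refine Or.inr ⟨p, hp, Set.ext fun x => ⟨fun hx => ⟨hx.1, ?_⟩, fun hx => ⟨hx.1, ?_⟩⟩⟩
      · exact (h _ x (hsub c hx).1).mp (hsub c hx).2
      · rw [pre_iff]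
        exact (h _ x (Pool.Agent.H421.QD.isQ_of_natDegree (hint x) hx.1)).mpr hx.2

end Pool.Agent.Results.MP_90787a_nt.QuadraticPoints
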