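import Mathlib
import Pool.Agent.H421.TwD

/-!
# Uniform boundedness for unicritical polynomials over every number field

For a number field `K` and `d ≥ 5` the polynomials `z ^ d + c`, `c ∈ K`, have a uniformly bounded
number of preperiodic points in `K`; for all but finitely many `c` the preperiodic points in `K` are
just the points `x` with `x ^ d = p ^ d` for one fixed point `p`.  The same is true for the
polynomials `A (z - s) ^ d + b` (every polynomial of degree `d` with only one critical point), if at
the primes of bad reduction the exponent of `A (b - s) ^ (d - 1)` satisfies a divisibility condition.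

Proof.  Two periodic points `x ≠ y` have a quotient `x / y` such that all the quotients of the
numbers `x / y - ζ`, `ζ ^ d = 1`, `ζ ≠ 1`, are `m`-th powers of ideals; there are only finitely many
such quotients, by Mordell's conjecture (Faltings) for suitable curves over number fields, proved for
all hyperelliptic curves and for the power class curves needed here by helper422
(`Pool.Agent.H422.HE`).
-/

namespace Pool.Agent.Results.MP_90787a_nt.Unicritical

open IsDedekindDomain NumberField

/-- `x` is a preperiodic point of the map `f`. -/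
def Preper {X : Type*} (f : X → X) (x : X) : Prop := ∃ i j : ℕ, j < i ∧ f^[i] x = f^[j] x

/-- The condition on `e` at a prime `v` where `e` is not integral: if the value of `e` is a `d`-th
power `γ ^ d` in the value group, then `γ` is an `m`-th power in the value group; in additive
notation: if `d ∣ v(e)`, then `d m ∣ v(e)`. -/
def Cond {K : Type} [Field K] [NumberField K] (v : HeightOneSpectrum (𝓞 K)) (d m : ℕ) (e : K) :
    Prop :=
  1 < v.valuation K e → ∀ γ, v.valuation K e = γ ^ d → ∃ δ, γ = δ ^ m

/-- At most `B` preperiodic points in `K`. -/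
def AtMost {K : Type} (B : ℕ) (f : K → K) : Prop :=
  ∀ T : Finset K, (∀ x ∈ T, Preper f x) → T.card ≤ B

/-- There is no preperiodic point in `K`, or there is a fixed point `p` such that the preperiodic
points are exactly the solutions of `f x = p`. -/
def OneFixedPoint {K : Type} (f : K → K) : Prop :=
  (∀ x, ¬ Preper f x) ∨ ∃ p, f p = p ∧ ∀ x, Preper f x ↔ f x = p

lemma pre_iff {X : Type*} (f : X → X) (x : X) : Preper f x ↔ Pool.Agent.H422.UC.Pre f x := by
  constructor
  · rintro ⟨i, j, h, he⟩
    exact ⟨j, i, h, he.symm⟩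
  · rintro ⟨j, i, h, he⟩
    exact ⟨i, j, h, he.symm⟩

lemma one_of {K : Type} [Field K] {d : ℕ} {A s b : K}
    (h : ∀ x y, Preper (fun z : K => A * (z - s) ^ d + b) x →
      Preper (fun z : K => A * (z - s) ^ d + b) y → (x - s) ^ d = (y - s) ^ d) :
    OneFixedPoint (fun z : K => A * (z - s) ^ d + b) := by
  set f := fun z : K => A * (z - s) ^ d + b with hf
  by_cases hex : ∃ x, Preper f x
  · obtain ⟨x0, hx0⟩ := hex
    have hst : ∀ x, Preper f x → Preper f (f x) := by
      intro x hx
      rw [pre_iff] at hx ⊢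
      exact hx.step
    have hsame : ∀ x y, Preper f x → Preper f y → f x = f y := by
      intro x y hx hy
      simp only [hf]
      rw [h x y hx hy]
    refine Or.inr ⟨f x0, hsame _ _ (hst _ hx0) hx0, fun x => ⟨fun hx => hsame _ _ hx hx0, ?_⟩⟩
    intro hx
    rw [pre_iff]
    apply Pool.Agent.H422.UC.Pre.of_step
    rw [hx, ← pre_iff]
    exact hst _ hx0
  · exact Or.inl (by push Not at hex; exact hex)

/-- **Uniform boundedness for unicritical polynomials over every number field `K`.**
(1) For `d ≥ 5` there are a number `B` and a finite subset `E` of `K` such that for all `c ∈ K` the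
polynomial `z ^ d + c` has at most `B` preperiodic points in `K`, and if `c ∉ E`, then either it has
none or there is a fixed point `p` and the preperiodic points in `K` are the solutions in `K` of
`x ^ d + c = p`.
(2) Let `S` be a finite set of primes of `K` and `(m ≥ 4, d ≥ 4)` or `(m ≥ 3, d ≥ 5)` or
`(m ≥ 2, d ≥ 6)`. Then there are a number `B` and a finite subset `E` of `K` such that for all
`A, s, b ∈ K`, `A ≠ 0`, for which `e = A (b - s) ^ (d - 1)` satisfies condition `Cond` at all primes
outside `S`, the same is true for the polynomial `A (z - s) ^ d + b`: it has at most `B` preperiodic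
points in `K`, and if `e ∉ E`, then either it has none or there is a fixed point `p` and the
preperiodic points in `K` are the solutions in `K` of `A (x - s) ^ d + b = p`. -/
theorem result (K : Type) [Field K] [NumberField K] :
    (∀ d : ℕ, 5 ≤ d → ∃ (B : ℕ) (E : Set K), E.Finite ∧ ∀ c : K,
      AtMost B (fun z : K => z ^ d + c) ∧ (c ∉ E → OneFixedPoint (fun z : K => z ^ d + c))) ∧
    (∀ (d m : ℕ) (S : Set (HeightOneSpectrum (𝓞 K))), S.Finite →
      (4 ≤ m ∧ 4 ≤ d) ∨ (3 ≤ m ∧ 5 ≤ d) ∨ (2 ≤ m ∧ 6 ≤ d) →
      ∃ (B : ℕ) (E : Set K), E.Finite ∧ ∀ A s b : K, A ≠ 0 →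
        (∀ v ∉ S, Cond v d m (A * (b - s) ^ (d - 1))) →
        AtMost B (fun z : K => A * (z - s) ^ d + b) ∧
        (A * (b - s) ^ (d - 1) ∉ E → OneFixedPoint (fun z : K => A * (z - s) ^ d + b))) := by
  have hmain : ∀ (d m : ℕ) (S : Set (HeightOneSpectrum (𝓞 K))), S.Finite →
      (4 ≤ m ∧ 4 ≤ d) ∨ (3 ≤ m ∧ 5 ≤ d) ∨ (2 ≤ m ∧ 6 ≤ d) →
      ∃ (B : ℕ) (E : Set K), E.Finite ∧ ∀ A s b : K, A ≠ 0 →
        (∀ v ∉ S, Cond v d m (A * (b - s) ^ (d - 1))) →
        AtMost B (fun z : K => A * (z - s) ^ d + b) ∧
        (A * (b - s) ^ (d - 1) ∉ E → OneFixedPoint (fun z : K => A * (z - s) ^ d + b)) := by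
    classical
    intro d m S hS h
    obtain ⟨E, B, hE, hB⟩ := Pool.Agent.H421.TW.main K (d := d) (m := m) h hS
    refine ⟨B, E, hE, ?_⟩
    intro A s b hA hcond
    obtain ⟨h1, h2⟩ := hB A (b - s) hA hcond
    have hsemi : ∀ x : K, (fun z : K => A * (z - s) ^ d + b) x - s =
        Pool.Agent.H421.TW.PP d A (b - s) (x - s) := by
      intro x
      simp only [Pool.Agent.H421.TW.PP]; ring
    have hpre : ∀ x : K, Preper (fun z : K => A * (z - s) ^ d + b) x →
        Pool.Agent.H422.UC.Pre (Pool.Agent.H421.TW.PP d A (b - s)) (x - s) := by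
      intro x hx
      rw [pre_iff] at hx
      exact Pool.Agent.H421.TW.Pre_semi (φ := fun x => x - s) hsemi hx
    refine ⟨?_, ?_⟩
    · intro T hT
      have := h1 (T.image (fun x => x - s)) (by
        intro y hy
        obtain ⟨x, hx, rfl⟩ := Finset.mem_image.mp hy
        exact hpre x (hT x hx))
      rwa [Finset.card_image_of_injective _ sub_left_injective] at this
    · intro he
      apply one_of
      intro x y hx hy
      exact h2 he _ _ (hpre x hx) (hpre y hy)
  refine ⟨?_, hmain⟩
  intro d hd
  obtain ⟨B, E, hE, hB⟩ := hmain d (d - 1) ∅ Set.finite_empty (by omega)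
  refine ⟨B, ⋃ e ∈ E, {c : K | c ^ (d - 1) = e},
    hE.biUnion fun e _ => Pool.Agent.H422.UC.pow_eq_finite (by omega) e, ?_⟩
  intro c
  have h0 : ∀ v ∉ (∅ : Set (HeightOneSpectrum (𝓞 K))), Cond v d (d - 1) (1 * (c - 0) ^ (d - 1)) := by
    intro v _ h1 γ hγ
    rw [one_mul, sub_zero, map_pow] at h1 hγ
    refine ⟨v.valuation K c / γ, ?_⟩
    have hγ0 : γ ≠ 0 := by
      rintro rfl
      rw [hγ, zero_pow (by omega)] at h1
      exact absurd h1 (not_lt.mpr zero_le)
    have h2 : γ ^ d = γ ^ (d - 1) * γ := by rw [← pow_succ, Nat.sub_add_cancel (by omega)]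
    rw [div_pow, hγ, h2, mul_div_assoc, mul_comm, div_mul_cancel₀ _ (pow_ne_zero _ hγ0)]
  have h1 := hB 1 0 c one_ne_zero h0
  simp only [one_mul, sub_zero] at h1
  refine ⟨h1.1, fun hc => h1.2 ?_⟩
  intro hcE
  apply hc
  simp only [Set.mem_iUnion]
  exact ⟨_, hcE, rfl⟩

end Pool.Agent.Results.MP_90787a_nt.Unicritical
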